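import Pool.Agent.H418R3.FB.Stmts

/-!
# Project FB: the block space
-/

set_option autoImplicit false

namespace Pool.Agent.H644R3.FB

open Set Topology Filter
open Pool.Agent.H418R3.FB

/-- the index of a coordinate -/
def code (b a a' : ℕ) : ℕ := Nat.pair b (Nat.pair a a')

lemma code_inj {b a a' b' x y : ℕ} : code b' x y = code b a a' ↔ b' = b ∧ x = a ∧ y = a' := by
  unfold code
  rw [Nat.pair_eq_pair, Nat.pair_eq_pair]

/-- eventually constant sequences -/
def EC (W : ℕ → ℝ) : Prop := ∃ K, ∀ k ≥ K, W k = W K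

lemma idx_mono (s : List ℕ) {k k' : ℕ} (h : k ≤ k') : idx s k ≤ idx s k' := by
  unfold idx
  apply List.Sublist.length_le
  apply List.monotone_filter_right
  intro a ha
  simp only [decide_eq_true_eq] at ha ⊢
  omega

lemma idx_const (s : List ℕ) : ∀ k ≥ s.sum + 1, idx s k = s.length := by
  intro k hk
  unfold idx
  rw [List.filter_eq_self.mpr]
  intro a ha
  have := List.single_le_sum (fun x _ => Nat.zero_le x) a ha
  simp only [decide_eq_true_eq]
  omega

lemma wt_EC (σ : ℕ → List ℕ) (b a a' : ℕ) : EC (fun k => wt σ b k a a') := by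
  refine ⟨(σ b).sum + 1, fun k hk => ?_⟩
  simp only [wt]
  rw [idx_const (σ b) k hk, idx_const (σ b) _ le_rfl]

lemma HH_pos (b : ℕ) : 0 < HH b := by unfold HH; positivity

lemma HH_one (b : ℕ) : 1 ≤ HH b := by
  unfold HH
  have : (0 : ℝ) ≤ b := Nat.cast_nonneg b
  linarith

lemma HH_le_rr (b : ℕ) : HH b ≤ rr b := by
  unfold HH rr
  have h1 : b + 1 ≤ (b + 1).factorial := Nat.self_le_factorial _
  have h2 : (b + 1).factorial < 2 ^ (b + 1).factorial := Nat.lt_two_pow_self
  have h3 : b + 1 ≤ 2 ^ (b + 1).factorial := by omega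
  exact_mod_cast h3

lemma rr_one (b : ℕ) : 1 ≤ rr b := (HH_one b).trans (HH_le_rr b)

lemma wt_pos (σ : ℕ → List ℕ) (b k a a' : ℕ) : 0 < wt σ b k a a' := by
  unfold wt
  apply mul_pos (pow_pos (lt_of_lt_of_le one_pos (rr_one b)) _)
  split_ifs
  · exact one_pos
  · exact HH_pos b

lemma wt_mono (σ : ℕ → List ℕ) (b a a' : ℕ) {k k' : ℕ} (h : k ≤ k') :
    wt σ b k a a' ≤ wt σ b k' a a' := by
  have h1 := idx_mono (σ b) h
  rcases eq_or_lt_of_le h1 with h2 | h2
  · simp only [wt]
    rw [h2]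
  · have hr0 : 0 ≤ rr b := zero_le_one.trans (rr_one b)
    calc wt σ b k a a' ≤ rr b ^ idx (σ b) k * rr b := by
          unfold wt
          apply mul_le_mul_of_nonneg_left _ (pow_nonneg hr0 _)
          split_ifs
          · exact rr_one b
          · exact HH_le_rr b
      _ = rr b ^ (idx (σ b) k + 1) := by rw [pow_succ]
      _ ≤ rr b ^ idx (σ b) k' := pow_le_pow_right₀ (rr_one b) h2
      _ ≤ wt σ b k' a a' := by
          unfold wt
          have : 0 ≤ rr b ^ idx (σ b) k' := pow_nonneg hr0 _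
          split_ifs
          · rw [mul_one]
          · nlinarith [HH_one b]

/-- the basis vectors -/
noncomputable def ee (σ : ℕ → List ℕ) (F : ℕ → (ℕ → ℝ) → CR) (b a : ℕ) : CR :=
  ∑ a2 ∈ Finset.range (σ b).length, F (code b a a2) (fun k => wt σ b k a a2) -
    ∑ a2 ∈ Finset.range (σ b).length, F (code b a2 a) (fun k => wt σ b k a2 a)

/-- the coordinates -/
noncomputable def xi (σ : ℕ → List ℕ) (c : ℕ → ℕ → ℝ) (b a : ℕ) : CR →L[ℝ] ℝ :=
  if 0 < a ∧ a < (σ b).length then
    (wt σ b 0 a 0)⁻¹ • ContinuousMap.evalCLM ℝ (c 0 (code b a 0)) else 0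

lemma ee_apply (σ : ℕ → List ℕ) (F : ℕ → (ℕ → ℝ) → CR) (b a : ℕ) (t : ℝ) :
    ee σ F b a t = ∑ a2 ∈ Finset.range (σ b).length, F (code b a a2) (fun k => wt σ b k a a2) t -
    ∑ a2 ∈ Finset.range (σ b).length, F (code b a2 a) (fun k => wt σ b k a2 a) t := by
  unfold ee
  rw [ContinuousMap.sub_apply, ContinuousMap.sum_apply, ContinuousMap.sum_apply]

section
variable {σ : ℕ → List ℕ} {c : ℕ → ℕ → ℝ} {F : ℕ → (ℕ → ℝ) → CR}

lemma ee_val (hE : Emb c F) (b a k b' x y : ℕ) (hx : x < (σ b').length)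
    (hy : y < (σ b').length) : ee σ F b a (c k (code b' x y)) =
      if b' = b then wt σ b k x y * ((if x = a then 1 else 0) - (if y = a then 1 else 0))
      else 0 := by
  rw [ee_apply]
  have h1 : ∀ a2, F (code b a a2) (fun k => wt σ b k a a2) (c k (code b' x y)) =
      if b' = b ∧ x = a ∧ y = a2 then wt σ b k a a2 else 0 := by
    intro a2
    rw [hE.2.1 _ _ (wt_EC σ b a a2)]
    simp only [code_inj]
  have h2 : ∀ a2, F (code b a2 a) (fun k => wt σ b k a2 a) (c k (code b' x y)) =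
      if b' = b ∧ x = a2 ∧ y = a then wt σ b k a2 a else 0 := by
    intro a2
    rw [hE.2.1 _ _ (wt_EC σ b a2 a)]
    simp only [code_inj]
  simp only [h1, h2]
  by_cases hb : b' = b
  · subst hb
    simp only [true_and, if_true]
    have e1 : ∑ a2 ∈ Finset.range (σ b').length, (if x = a ∧ y = a2 then wt σ b' k a a2 else 0) =
        wt σ b' k x y * (if x = a then 1 else 0) := by
      by_cases hxa : x = a
      · subst hxa
        simp only [true_and, if_true, mul_one]
        rw [Finset.sum_ite_eq, if_pos (Finset.mem_range.mpr hy)]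
      · simp [hxa]
    have e2 : ∑ a2 ∈ Finset.range (σ b').length, (if x = a2 ∧ y = a then wt σ b' k a2 a else 0) =
        wt σ b' k x y * (if y = a then 1 else 0) := by
      by_cases hya : y = a
      · subst hya
        simp only [and_true, if_true, mul_one]
        rw [Finset.sum_ite_eq, if_pos (Finset.mem_range.mpr hx)]
      · simp [hya]
    rw [e1, e2]
    ring
  · simp [hb]

lemma ee_zero (hE : Emb c F) (b a k m : ℕ) (ha : a < (σ b).length)
    (hm : ∀ b' x y, x < (σ b').length → y < (σ b').length → m ≠ code b' x y) :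
    ee σ F b a (c k m) = 0 := by
  rw [ee_apply, Finset.sum_eq_zero, Finset.sum_eq_zero, sub_zero]
  · intro a2 h2
    rw [hE.2.1 _ _ (wt_EC σ b a2 a), if_neg (hm b a2 a (Finset.mem_range.mp h2) ha)]
  · intro a2 h2
    rw [hE.2.1 _ _ (wt_EC σ b a a2), if_neg (hm b a a2 ha (Finset.mem_range.mp h2))]

lemma xi_ee (hE : Emb c F) (b a : ℕ) (ha : 0 < a) (han : a < (σ b).length) (b' a' : ℕ) :
    xi σ c b' a' (ee σ F b a) = if b' = b ∧ a' = a then 1 else 0 := by
  unfold xi
  split_ifs with h1 h2 h2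
  · obtain ⟨rfl, rfl⟩ := h2
    rw [ContinuousLinearMap.smul_apply, ContinuousMap.evalCLM_apply,
      ee_val hE b' a' 0 b' a' 0 h1.2 (by omega)]
    have hw := (wt_pos σ b' 0 a' 0).ne'
    rw [if_pos rfl, if_pos rfl, if_neg (by omega), smul_eq_mul]
    field_simp
    ring
  · rw [ContinuousLinearMap.smul_apply, ContinuousMap.evalCLM_apply,
      ee_val hE b a 0 b' a' 0 h1.2 (by omega)]
    by_cases hb : b' = b
    · have : a' ≠ a := fun h => h2 ⟨hb, h⟩
      rw [if_pos hb, if_neg this, if_neg (by omega)]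
      simp
    · rw [if_neg hb]; simp
  · exfalso
    obtain ⟨rfl, rfl⟩ := h2
    exact h1 ⟨ha, han⟩
  · rfl

lemma ker_of {e : ℕ → ℕ → CR} (l : CR →L[ℝ] ℝ)
    (h : ∀ b a, 0 < a → a < (σ b).length → l (e b a) = 0) : ∀ g ∈ XX σ e univ, l g = 0 := by
  intro g hg
  have h1 : XX σ e univ ≤ LinearMap.ker (l : CR →ₗ[ℝ] ℝ) := by
    apply Submodule.topologicalClosure_minimal
    · rw [Submodule.span_le]
      rintro x ⟨b, _, a, ha, han, rfl⟩
      exact h b a ha han
    · exact l.isClosed_ker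
  exact h1 hg

lemma xx_one (hE : Emb c F) {g : CR} (hg : g ∈ XX σ (ee σ F) univ) (t : ℝ) :
    ∃ (k m : ℕ), (k : ℝ) ≤ |t| ∧ |g t| ≤ |g (c k m)| := by
  obtain ⟨k, m, η, hη, hk, hf⟩ := hE.2.2 t
  refine ⟨k, m, hk, ?_⟩
  have h1 := ker_of (σ := σ) (e := ee σ F)
    (ContinuousMap.evalCLM ℝ t - η • ContinuousMap.evalCLM ℝ (c k m)) (by
      intro b a ha han
      rw [ContinuousLinearMap.sub_apply, ContinuousLinearMap.smul_apply,
        ContinuousMap.evalCLM_apply, ContinuousMap.evalCLM_apply, ee_apply, ee_apply, smul_eq_mul,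
        mul_sub, Finset.mul_sum, Finset.mul_sum]
      rw [Finset.sum_congr rfl (fun a2 _ => hf (code b a a2) _ (wt_EC σ b a a2)),
        Finset.sum_congr rfl (fun a2 _ => hf (code b a2 a) _ (wt_EC σ b a2 a))]
      ring) g hg
  rw [ContinuousLinearMap.sub_apply, ContinuousLinearMap.smul_apply,
        ContinuousMap.evalCLM_apply, ContinuousMap.evalCLM_apply, smul_eq_mul, sub_eq_zero] at h1
  rw [h1, abs_mul]
  have := abs_nonneg (g (c k m))
  nlinarith

lemma xx_two (hE : Emb c F) {g : CR} (hg : g ∈ XX σ (ee σ F) univ) (k b x y : ℕ)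
    (hx : x < (σ b).length) (hy : y < (σ b).length) :
    g (c k (code b x y)) = wt σ b k x y * (xi σ c b x g - xi σ c b y g) := by
  have h1 := ker_of (σ := σ) (e := ee σ F)
    (ContinuousMap.evalCLM ℝ (c k (code b x y)) - wt σ b k x y • (xi σ c b x - xi σ c b y)) (by
      intro b' a ha han
      rw [ContinuousLinearMap.sub_apply, ContinuousLinearMap.smul_apply,
        ContinuousMap.evalCLM_apply, ContinuousLinearMap.sub_apply, xi_ee hE b' a ha han,
        xi_ee hE b' a ha han, ee_val hE b' a k b x y hx hy, smul_eq_mul]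
      by_cases hb : b = b'
      · subst hb
        simp
      · simp [hb]) g hg
  rw [ContinuousLinearMap.sub_apply, ContinuousLinearMap.smul_apply,
        ContinuousMap.evalCLM_apply, ContinuousLinearMap.sub_apply, smul_eq_mul,
        sub_eq_zero] at h1
  exact h1

lemma xx_three (hE : Emb c F) {g : CR} (hg : g ∈ XX σ (ee σ F) univ) (k m : ℕ)
    (hm : ∀ b' x y, x < (σ b').length → y < (σ b').length → m ≠ code b' x y) :
    g (c k m) = 0 := by
  have h1 := ker_of (σ := σ) (e := ee σ F)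
    (ContinuousMap.evalCLM ℝ (c k m)) (by
      intro b' a ha han
      rw [ContinuousMap.evalCLM_apply, ee_zero hE b' a k m han hm]) g hg
  rwa [ContinuousMap.evalCLM_apply] at h1

end

theorem taskSpace : TaskSpace := by
  rintro ⟨c, F, hE⟩ σ
  refine ⟨xi σ c, ee σ F, ?_, ?_, ?_, ?_⟩
  · intro b a ha han b' a'
    exact xi_ee hE b a ha han b' a'
  · intro b a g h
    unfold xi
    rw [if_neg (by omega)]
    rfl
  · intro g hg k M hM h t ht
    obtain ⟨k', m, hk, hle⟩ := xx_one hE hg t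
    have hkk : k' ≤ k := by exact_mod_cast hk.trans ht
    refine hle.trans ?_
    by_cases hm : ∀ b' x y, x < (σ b').length → y < (σ b').length → m ≠ code b' x y
    · rw [xx_three hE hg k' m hm, abs_zero]
      exact hM
    · push Not at hm
      obtain ⟨b, x, y, hx, hy, rfl⟩ := hm
      rw [xx_two hE hg k' b x y hx hy, abs_mul, abs_of_pos (wt_pos σ b k' x y)]
      refine le_trans ?_ (h b x y hx hy)
      exact mul_le_mul_of_nonneg_right (wt_mono σ b x y hkk) (abs_nonneg _)
  · intro g hg k M h b a a' ha ha'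
    have h1 := h (c k (code b a a')) (by
      rw [abs_of_nonneg (hE.1 _ _).1]
      exact (hE.1 _ _).2)
    rwa [xx_two hE hg k b a a' ha ha', abs_mul, abs_of_pos (wt_pos σ b k a a')] at h1

end Pool.Agent.H644R3.FB
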